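import Mathlib
import Pool.Agent.Helper89.SX.GL.Defs

/-!
# SX-GC: torus, unitriangular and monomial matrices

Hints: `mem_U`, `mem_N`, `nu_eq`, `pm_mul_dgl_apply`, `dgl_apply`, `pm_dgl_unique` of `GL/Defs.lean`.
`N_inf_B`: if `dgl c * u = pm σ * dgl d` then the `(j, j)` entry of the left side is `c j ≠ 0`, so
`j = σ j`; so `σ = 1` and the product is `dgl d`.
-/

set_option autoImplicit false

namespace Pool.Agent.Helper89.SX.GLn

open Matrix Equiv

variable {n : ℕ} {F : Type*} [Field F]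

private theorem dgl_mul_apply (c : Fin (n + 1) → Fˣ) (u : GL (Fin (n + 1)) F)
    (i j : Fin (n + 1)) :
    (dgl c * u : GL (Fin (n + 1)) F) i j = (c i : F) * u i j := by
  change (diagonal (fun i => (c i : F)) * (u : Matrix (Fin (n + 1)) (Fin (n + 1)) F)) i j = _
  rw [diagonal_mul]

private theorem mul_dgl_apply (c : Fin (n + 1) → Fˣ) (u : GL (Fin (n + 1)) F)
    (i j : Fin (n + 1)) :
    (u * dgl c : GL (Fin (n + 1)) F) i j = u i j * (c j : F) := by
  change ((u : Matrix (Fin (n + 1)) (Fin (n + 1)) F) * diagonal (fun i => (c i : F))) i j = _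
  rw [mul_diagonal]

theorem T_le_N : T n F ≤ N n F := by
  rintro _ ⟨c, rfl⟩
  exact mem_N.2 ⟨1, c, by rw [map_one, one_mul]⟩

theorem nu_surjective : Function.Surjective (nu n F) := by
  intro σ
  refine ⟨⟨pm σ, mem_N.2 ⟨σ, 1, by rw [map_one, mul_one]⟩⟩, ?_⟩
  refine nu_eq (c := 1) ?_
  change (pm σ : GL (Fin (n + 1)) F) = pm σ * dgl 1
  rw [map_one, mul_one]

theorem nu_eq_one (g : N n F) : nu n F g = 1 ↔ (g : GL (Fin (n + 1)) F) ∈ T n F := by
  constructor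
  · intro h
    obtain ⟨σ, c, hc⟩ := mem_N.1 g.2
    have h1 := nu_eq hc
    rw [h] at h1
    rw [hc, ← h1, map_one, one_mul]
    exact ⟨c, rfl⟩
  · rintro ⟨c, hc⟩
    exact nu_eq (c := c) (by rw [map_one, one_mul, hc])

theorem conj_U : ∀ t ∈ T n F, ∀ u ∈ U n F, t * u * t⁻¹ ∈ U n F := by
  rintro _ ⟨c, rfl⟩ u hu
  obtain ⟨h1, h2⟩ := mem_U.1 hu
  rw [← map_inv]
  refine mem_U.2 ⟨fun i j hij => ?_, fun i => ?_⟩
  · rw [mul_dgl_apply, dgl_mul_apply, h1 i j hij, mul_zero, zero_mul]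
  · rw [mul_dgl_apply, dgl_mul_apply, h2 i, mul_one, Pi.inv_apply]
    exact Units.mul_inv (c i)

theorem T_inf_U : ∀ g ∈ T n F, g ∈ U n F → g = 1 := by
  rintro _ ⟨c, rfl⟩ hu
  obtain ⟨h1, h2⟩ := mem_U.1 hu
  have h3 : c = 1 := by
    funext i
    have h4 := h2 i
    rw [dgl_apply, if_pos rfl] at h4
    exact Units.ext h4
  rw [h3, map_one]

theorem N_inf_B : ∀ t ∈ T n F, ∀ u ∈ U n F, t * u ∈ N n F → t * u ∈ T n F := by
  rintro _ ⟨c, rfl⟩ u hu hN
  obtain ⟨h1, h2⟩ := mem_U.1 hu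
  obtain ⟨σ, d, hd⟩ := mem_N.1 hN
  have h3 : σ = 1 := by
    ext j
    have h4 := congrArg (fun g : GL (Fin (n + 1)) F => g j j) hd
    simp only [pm_mul_dgl_apply, dgl_mul_apply, h2 j, mul_one] at h4
    split_ifs at h4 with h5
    · rw [← h5]; rfl
    · exact absurd h4 (c j).ne_zero
  rw [hd, h3, map_one, one_mul]
  exact ⟨d, rfl⟩

end Pool.Agent.Helper89.SX.GLn
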