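import Mathlib
import Pool.Agent.Helper89.SX.GL.Defs

/-!
# SX-GD: unitriangular matrices in characteristic `p` have order a power of `p`

Hints: the characteristic polynomial of a unitriangular matrix is `(X - 1) ^ (n + 1)`
(`Matrix.charpoly_of_upperTriangular`, or `Matrix.det_of_upperTriangular` for `charmatrix`), so
`(u - 1) ^ (n + 1) = 0` by `Matrix.aeval_self_charpoly`; take `k` with `n + 1 ≤ p ^ k`
(`Nat.lt_pow_self`), then `(u - 1) ^ (p ^ k) = u ^ (p ^ k) - 1` (`sub_pow_char_pow_of_commute` or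
`add_pow_char_pow_of_commute`; the matrix ring has characteristic `p`: `Matrix.charP`).
Or by hand: `(u - 1) ^ m` has entry `0` at `(i, j)` if `j < i + m`.
-/

set_option autoImplicit false

namespace Pool.Agent.Helper89.SX.GLn

open Matrix Equiv

variable {n : ℕ} {F : Type*} [Field F]

theorem unipotent (p : ℕ) [Fact p.Prime] [CharP F p] :
    ∀ u ∈ U n F, ∃ k : ℕ, u ^ p ^ k = 1 := by
  intro u hu
  obtain ⟨h1, h2⟩ := mem_U.1 hu
  have hp : 1 < p := (Fact.out : p.Prime).one_lt
  have htri : Matrix.IsUpperTriangular (u : Matrix (Fin (n + 1)) (Fin (n + 1)) F) :=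
    fun i j hij => h1 i j hij
  have hchar : (u : Matrix (Fin (n + 1)) (Fin (n + 1)) F).charpoly =
      (Polynomial.X - Polynomial.C 1) ^ (n + 1) := by
    rw [Matrix.charpoly_of_isUpperTriangular _ htri]
    have h3 : ∀ i : Fin (n + 1), Polynomial.X -
        Polynomial.C ((u : Matrix (Fin (n + 1)) (Fin (n + 1)) F) i i) =
        Polynomial.X - Polynomial.C 1 := by
      intro i
      have h4 : (u : Matrix (Fin (n + 1)) (Fin (n + 1)) F) i i = 1 := h2 i
      rw [h4]
    rw [Finset.prod_congr rfl fun i _ => h3 i, Finset.prod_const, Finset.card_univ,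
      Fintype.card_fin]
  have hnil : ((u : Matrix (Fin (n + 1)) (Fin (n + 1)) F) - 1) ^ (n + 1) = 0 := by
    have h3 := Matrix.aeval_self_charpoly (u : Matrix (Fin (n + 1)) (Fin (n + 1)) F)
    rw [hchar, map_pow, map_sub, Polynomial.aeval_X, Polynomial.aeval_C, map_one] at h3
    exact h3
  refine ⟨n + 1, Units.ext ?_⟩
  have hle : n + 1 ≤ p ^ (n + 1) := (Nat.lt_pow_self hp).le
  have hnil' : ((u : Matrix (Fin (n + 1)) (Fin (n + 1)) F) - 1) ^ p ^ (n + 1) = 0 :=
    pow_eq_zero_of_le hle hnil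
  have := Matrix.charP (n := Fin (n + 1)) (R := F) p
  rw [sub_pow_char_pow_of_commute p (n + 1)
    (Commute.one_right (u : Matrix (Fin (n + 1)) (Fin (n + 1)) F)), one_pow, sub_eq_zero] at hnil'
  rw [Units.val_pow_eq_pow_val, hnil', Units.val_one]

end Pool.Agent.Helper89.SX.GLn
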