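import Mathlib
import Pool.Agent.Helper89.SX.GL.Defs
import Pool.Agent.Helper89.SX.GL.Cox

/-!
# SX-GE: the rank one subgroups

Hints: compute the entries of `embM i x = 1 + inc F i * (x - 1) * (inc F i)ᵀ` once and for all
(`embM_apply` below: the entry at `(a, b)` is `x` at `(0,0), (0,1), (1,0), (1,1)` for
`a, b ∈ {i.castSucc, i.succ}`, and `1` or `0` elsewhere).
`φ_i(dg c) = dgl (Function.update (Function.update 1 i.castSucc c) i.succ c⁻¹)`,
`φ_i(wt) = pm (adj n i) * dgl (Function.update 1 i.castSucc (-1))` (the column `i.castSucc` has `-1`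
in the row `i.succ`, the column `i.succ` has `1` in the row `i.castSucc`), and `nu_eq`.
`conj_phi`: `T n F` is the range of `tor n F` (`(tor n F).surjective`), `coe_tor`, `al_tor`; prove
`dgl c * embM i x = embM i (tw _ x) * dgl c` entrywise.
-/

set_option autoImplicit false

namespace Pool.Agent.Helper89.SX.GLn

open Matrix Equiv

variable {n : ℕ} {F : Type*} [Field F]

theorem embM_apply (i : Fin n) (x : Matrix (Fin 2) (Fin 2) F) (a b : Fin (n + 1)) :
    embM i x a b = if a = i.castSucc then
        (if b = i.castSucc then x 0 0 else if b = i.succ then x 0 1 else 0)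
      else if a = i.succ then
        (if b = i.castSucc then x 1 0 else if b = i.succ then x 1 1 else 0)
      else if a = b then 1 else 0 := by
  have h : i.castSucc ≠ i.succ := (Fin.castSucc_lt_succ).ne
  have h' : i.succ ≠ i.castSucc := h.symm
  by_cases ha : a = i.castSucc
  · subst ha
    by_cases hb : b = i.castSucc
    · subst hb
      simp [embM, Matrix.mul_apply, Fin.sum_univ_two, inc, h, h']
    · by_cases hb' : b = i.succ
      · subst hb'
        simp [embM, Matrix.mul_apply, Fin.sum_univ_two, inc, h, h']
      · simp [embM, Matrix.mul_apply, Fin.sum_univ_two, inc, h, h', hb, hb', Ne.symm hb,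
          Matrix.one_apply, eq_comm]
  · by_cases ha' : a = i.succ
    · subst ha'
      by_cases hb : b = i.castSucc
      · subst hb
        simp [embM, Matrix.mul_apply, Fin.sum_univ_two, inc, h, h']
      · by_cases hb' : b = i.succ
        · subst hb'
          simp [embM, Matrix.mul_apply, Fin.sum_univ_two, inc, h, h']
        · simp [embM, Matrix.mul_apply, Fin.sum_univ_two, inc, h, h', hb, hb', Ne.symm hb',
            Matrix.one_apply, eq_comm]
    · simp [embM, Matrix.mul_apply, Fin.sum_univ_two, inc, ha, ha', Matrix.one_apply]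

theorem phi_dg (i : Fin n) (c : Fˣ) : phi i (dg c) =
    dgl (Function.update (Function.update 1 i.castSucc c) i.succ c⁻¹) := by
  have h : i.castSucc ≠ i.succ := (Fin.castSucc_lt_succ).ne
  have h' : i.succ ≠ i.castSucc := h.symm
  ext a b
  rw [dgl_apply]
  change embM i _ a b = _
  rw [embM_apply]
  by_cases ha : a = i.castSucc
  · subst ha
    by_cases hb : b = i.castSucc
    · subst hb
      simp [dg, h, h']
    · by_cases hb' : b = i.succ
      · subst hb'
        simp [dg, h, h']
      · simp [hb, hb', Ne.symm hb]
  · by_cases ha' : a = i.succ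
    · subst ha'
      by_cases hb : b = i.castSucc
      · subst hb
        simp [dg, h, h']
      · by_cases hb' : b = i.succ
        · subst hb'
          simp [dg, h, h']
        · simp [h', hb, hb', Ne.symm hb']
    · simp [ha, ha']

theorem phi_dg_mem (i : Fin n) (c : Fˣ) : phi i (dg c) ∈ T n F := by
  rw [phi_dg]
  exact ⟨_, rfl⟩

theorem phi_up_mem (i : Fin n) (a : F) : phi i (up a) ∈ U n F := by
  have h : i.castSucc ≠ i.succ := (Fin.castSucc_lt_succ).ne
  have h' : i.succ ≠ i.castSucc := h.symm
  have hlt : i.castSucc < i.succ := Fin.castSucc_lt_succ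
  rw [mem_U]
  refine ⟨fun x y hxy => ?_, fun x => ?_⟩
  · change embM i _ x y = 0
    rw [embM_apply]
    by_cases hx : x = i.castSucc
    · subst hx
      have h1 : y ≠ i.castSucc := hxy.ne
      have h2 : y ≠ i.succ := (hxy.trans hlt).ne
      simp [h1, h2]
    · by_cases hx' : x = i.succ
      · subst hx'
        by_cases hy : y = i.castSucc
        · subst hy
          simp [up, h']
        · have h2 : y ≠ i.succ := hxy.ne
          simp [h', hy, h2]
      · simp [hx, hx', hxy.ne']
  · change embM i _ x x = 1
    rw [embM_apply]
    by_cases hx : x = i.castSucc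
    · subst hx
      simp [up]
    · by_cases hx' : x = i.succ
      · subst hx'
        simp [up, h']
      · simp [hx, hx']

theorem phi_wt (i : Fin n) : (phi i wt : GL (Fin (n + 1)) F) =
    pm (adj n i) * dgl (Function.update 1 i.castSucc (-1)) := by
  have h : i.castSucc ≠ i.succ := (Fin.castSucc_lt_succ).ne
  have h' : i.succ ≠ i.castSucc := h.symm
  ext a b
  rw [pm_mul_dgl_apply]
  change embM i _ a b = _
  rw [embM_apply]
  by_cases hb : b = i.castSucc
  · subst hb
    have e : adj n i i.castSucc = i.succ := Equiv.swap_apply_left _ _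
    rw [e]
    by_cases ha : a = i.castSucc
    · subst ha
      simp [wt, h]
    · by_cases ha' : a = i.succ
      · subst ha'
        simp [wt, h']
      · simp [ha, ha']
  · by_cases hb' : b = i.succ
    · subst hb'
      have e : adj n i i.succ = i.castSucc := Equiv.swap_apply_right _ _
      rw [e]
      by_cases ha : a = i.castSucc
      · subst ha
        simp [wt, h']
      · by_cases ha' : a = i.succ
        · subst ha'
          simp [wt, h']
        · simp [ha, ha']
    · have e : adj n i b = b := Equiv.swap_apply_of_ne_of_ne hb hb'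
      rw [e]
      by_cases ha : a = i.castSucc
      · subst ha
        simp [hb, hb', Ne.symm hb]
      · by_cases ha' : a = i.succ
        · subst ha'
          simp [hb, hb', h', Ne.symm hb']
        · simp [ha, ha', hb]

theorem phi_wt_mem (i : Fin n) : phi i wt ∈ N n F := by
  rw [phi_wt]
  exact ⟨_, _, rfl⟩

theorem nu_wt (i : Fin n) : nu n F ⟨phi i wt, phi_wt_mem i⟩ = adj n i :=
  nu_eq (phi_wt i)

theorem conj_phi (i : Fin n) (t : T n F) (x : SpecialLinearGroup (Fin 2) F) :
    (t : GL (Fin (n + 1)) F) * phi i x * (t : GL (Fin (n + 1)) F)⁻¹ = phi i (tw (al i t) x) := by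
  obtain ⟨c, rfl⟩ := (tor n F).surjective t
  have h : i.castSucc ≠ i.succ := (Fin.castSucc_lt_succ).ne
  have h' : i.succ ≠ i.castSucc := h.symm
  rw [coe_tor, mul_inv_eq_iff_eq_mul, al_tor]
  apply Units.ext
  ext a b
  change (diagonal (fun j => (c j : F)) * embM i x.1) a b =
    (embM i (tw (c i.castSucc * (c i.succ)⁻¹) x).1 * diagonal (fun j => (c j : F))) a b
  rw [diagonal_mul, mul_diagonal, embM_apply, embM_apply]
  by_cases ha : a = i.castSucc
  · subst ha
    by_cases hb : b = i.castSucc
    · subst hb
      simp [tw, mul_comm]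
    · by_cases hb' : b = i.succ
      · subst hb'
        have hc : (c i.succ : F) ≠ 0 := (c i.succ).ne_zero
        simp [tw, h']
        field_simp
      · simp [hb, hb']
  · by_cases ha' : a = i.succ
    · subst ha'
      by_cases hb : b = i.castSucc
      · subst hb
        have hc : (c i.castSucc : F) ≠ 0 := (c i.castSucc).ne_zero
        simp [tw, h']
        field_simp
      · by_cases hb' : b = i.succ
        · subst hb'
          simp [tw, h', mul_comm]
        · simp [h', hb, hb']
    · simp only [ha, ha', if_false]
      split_ifs with hab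
      · subst hab
        ring
      · ring

end Pool.Agent.Helper89.SX.GLn
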