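import Mathlib
import Pool.Agent.Helper89.SX.GL.St.GE

/-!
# SX-GF: positive roots and the splitting of `U`

Hints.  `conj_pos`: `g = pm σ * dgl c` with `σ = nu n F g` (`nu_eq`), `σ i.castSucc < σ i.succ`.  It
is enough that `g * φ_i(up a) = u * g` for the unitriangular matrix `u` with the single entry
`c i.castSucc * a * (c i.succ)⁻¹` at `(σ i.castSucc, σ i.succ)` off the diagonal
(`Matrix.transvection`; or compute the entries of `g * φ_i(up a) * g⁻¹` directly:
`1 + g * E * g⁻¹` for `E` the matrix with the entry `a` at `(i.castSucc, i.succ)`).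

`split`: take `a = u i.castSucc i.succ` and `u' = φ_i(up (-a)) * u`; then `u' ∈ U` has entry `0` at
`(i.castSucc, i.succ)` (row `i.castSucc` of `u'` is row `i.castSucc` of `u` minus `a` times row
`i.succ`), and `φ_i(wt)⁻¹ * u' * φ_i(wt)` has the entry `± u' (s a) (s b)` at `(a, b)`, `s = adj n i`
(sign `1` on the diagonal): `phi_wt`, `pm_mul_dgl_apply`.  If `b < a` then `s b < s a` unless
`a = i.succ`, `b = i.castSucc`, and in that case `u' (s a) (s b) = u' i.castSucc i.succ = 0`.
-/

set_option autoImplicit false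

namespace Pool.Agent.Helper89.SX.GLn

open Matrix Equiv

variable {n : ℕ} {F : Type*} [Field F]

private theorem conj_apply' (σ : Perm (Fin (n + 1))) (c : Fin (n + 1) → Fˣ)
    (K M : GL (Fin (n + 1)) F) (h : pm σ * dgl c * K = M * (pm σ * dgl c))
    (x y : Fin (n + 1)) : (c x : F) * K x y = M (σ x) (σ y) * (c y : F) := by
  have h1 := congrArg (fun g : GL (Fin (n + 1)) F =>
    (g : Matrix (Fin (n + 1)) (Fin (n + 1)) F) (σ x) y) h
  simp only [Units.val_mul (pm σ * dgl c) K, Units.val_mul M (pm σ * dgl c)] at h1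
  rw [Matrix.mul_apply, Matrix.mul_apply] at h1
  have e1 : ∀ a b, ((pm σ * dgl c : GL (Fin (n + 1)) F) :
      Matrix (Fin (n + 1)) (Fin (n + 1)) F) a b = if a = σ b then (c b : F) else 0 :=
    fun a b => pm_mul_dgl_apply σ c a b
  simp only [e1] at h1
  rw [Finset.sum_eq_single x, Finset.sum_eq_single (σ y)] at h1
  · rw [if_pos rfl, if_pos rfl] at h1
    exact h1
  · intro b _ hb
    rw [if_neg hb, mul_zero]
  · intro hb
    exact absurd (Finset.mem_univ _) hb
  · intro b _ hb
    rw [if_neg (fun e => hb (σ.injective e).symm), zero_mul]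
  · intro hb
    exact absurd (Finset.mem_univ _) hb

private theorem app_inv (σ : Perm (Fin (n + 1))) (x : Fin (n + 1)) : σ (σ⁻¹ x) = x :=
  σ.apply_symm_apply x

private theorem phi_up_apply (i : Fin n) (a : F) (x y : Fin (n + 1)) :
    (phi i (up a) : GL (Fin (n + 1)) F) x y =
      if x = y then 1 else if x = i.castSucc ∧ y = i.succ then a else 0 := by
  have h : i.castSucc ≠ i.succ := (Fin.castSucc_lt_succ).ne
  have h' : i.succ ≠ i.castSucc := h.symm
  change embM i _ x y = _
  rw [embM_apply]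
  by_cases hx : x = i.castSucc
  · subst hx
    by_cases hy : y = i.castSucc
    · subst hy
      simp [up]
    · by_cases hy' : y = i.succ
      · subst hy'
        simp [up, h, h']
      · simp [hy, hy', Ne.symm hy]
  · by_cases hx' : x = i.succ
    · subst hx'
      by_cases hy : y = i.castSucc
      · subst hy
        simp [up, h, h']
      · by_cases hy' : y = i.succ
        · subst hy'
          simp [up, h']
        · simp [h', hy, hy', Ne.symm hy']
    · simp [hx, hx']

private theorem up_mul_up_neg (a : F) : (up a * up (-a) : SpecialLinearGroup (Fin 2) F) = 1 := by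
  ext x y
  fin_cases x <;> fin_cases y <;> simp [up, Matrix.mul_apply, Fin.sum_univ_two]

theorem conj_pos (g : N n F) (i : Fin n) (h : nu n F g i.castSucc < nu n F g i.succ) (a : F) :
    (g : GL (Fin (n + 1)) F) * phi i (up a) * (g : GL (Fin (n + 1)) F)⁻¹ ∈ U n F := by
  obtain ⟨σ, c, hg⟩ := g.2
  rw [nu_eq hg] at h
  rw [hg]
  obtain ⟨K, hK⟩ : ∃ K, K = pm σ * dgl c * phi i (up a) * (pm σ * dgl c)⁻¹ := ⟨_, rfl⟩
  have h1 : pm σ * dgl c * phi i (up a) = K * (pm σ * dgl c) := by
    rw [hK, inv_mul_cancel_right]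
  rw [← hK, mem_U]
  refine ⟨fun x y hxy => ?_, fun x => ?_⟩
  · have h2 := conj_apply' σ c _ _ h1 (σ⁻¹ x) (σ⁻¹ y)
    rw [app_inv, app_inv, phi_up_apply] at h2
    have h3 : σ⁻¹ x ≠ σ⁻¹ y := fun e => hxy.ne' (σ⁻¹.injective e)
    have h4 : ¬ (σ⁻¹ x = i.castSucc ∧ σ⁻¹ y = i.succ) := by
      rintro ⟨e1, e2⟩
      rw [Perm.inv_eq_iff_eq] at e1 e2
      rw [e1, e2] at hxy
      exact lt_asymm h hxy
    rw [if_neg h3, if_neg h4, mul_zero] at h2
    exact (mul_eq_zero.1 h2.symm).resolve_right (c _).ne_zero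
  · have h2 := conj_apply' σ c _ _ h1 (σ⁻¹ x) (σ⁻¹ x)
    rw [app_inv, phi_up_apply, if_pos rfl, mul_one] at h2
    exact mul_right_cancel₀ (c (σ⁻¹ x)).ne_zero (h2.symm.trans (one_mul _).symm)

theorem split (i : Fin n) : ∀ u ∈ U n F, ∃ a : F, ∃ u' ∈ U n F,
    u = phi i (up a) * u' ∧ (phi i wt)⁻¹ * u' * phi i wt ∈ U n F := by
  intro u hu
  have hne : i.castSucc ≠ i.succ := (Fin.castSucc_lt_succ).ne
  obtain ⟨u', hu'⟩ : ∃ u', u' = phi i (up (-(u i.castSucc i.succ))) * u := ⟨_, rfl⟩
  have hmem : u' ∈ U n F := by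
    rw [hu']
    exact mul_mem (phi_up_mem i _) hu
  have h0 : u' i.castSucc i.succ = 0 := by
    rw [hu']
    change ((phi i (up (-(u i.castSucc i.succ))) : GL (Fin (n + 1)) F) :
      Matrix (Fin (n + 1)) (Fin (n + 1)) F) i.castSucc ⬝ᵥ
      (fun j => (u : Matrix (Fin (n + 1)) (Fin (n + 1)) F) j i.succ) = 0
    rw [dotProduct]
    have e1 : ∀ a b, ((phi i (up (-(u i.castSucc i.succ))) : GL (Fin (n + 1)) F) :
        Matrix (Fin (n + 1)) (Fin (n + 1)) F) a b = if a = b then 1 else
          if a = i.castSucc ∧ b = i.succ then -(u i.castSucc i.succ) else 0 :=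
      fun a b => phi_up_apply i _ a b
    simp only [e1]
    rw [Finset.sum_eq_add i.castSucc i.succ hne]
    · rw [if_pos rfl, if_neg hne, if_pos (by simp), one_mul]
      have e2 : (u : Matrix (Fin (n + 1)) (Fin (n + 1)) F) i.succ i.succ = 1 := hu.2 i.succ
      rw [e2, mul_one]
      exact add_neg_cancel _
    · rintro b _ ⟨hb1, hb2⟩
      rw [if_neg (Ne.symm hb1), if_neg (fun e => hb2 e.2), zero_mul]
    · intro hb
      exact absurd (Finset.mem_univ _) hb
    · intro hb
      exact absurd (Finset.mem_univ _) hb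
  refine ⟨u i.castSucc i.succ, u', hmem, ?_, ?_⟩
  · rw [hu', ← mul_assoc, ← map_mul, up_mul_up_neg, map_one, one_mul]
  · obtain ⟨K, hK⟩ : ∃ K, K = (phi i wt)⁻¹ * u' * phi i wt := ⟨_, rfl⟩
    rw [← hK]
    have h1 : phi i wt * K = u' * phi i wt := by
      rw [hK, ← mul_assoc, ← mul_assoc, mul_inv_cancel, one_mul]
    rw [phi_wt] at h1
    rw [mem_U]
    refine ⟨fun x y hxy => ?_, fun x => ?_⟩
    · have h2 := conj_apply' _ _ _ _ h1 x y
      have h3 : u' (adj n i x) (adj n i y) = 0 := by
        by_cases hc : x = i.succ ∧ y = i.castSucc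
        · rw [hc.1, hc.2]
          have e1 : adj n i i.succ = i.castSucc := swap_apply_right _ _
          have e2 : adj n i i.castSucc = i.succ := swap_apply_left _ _
          rw [e1, e2, h0]
        · refine hmem.1 _ _ ?_
          unfold adj
          rw [Equiv.swap_apply_def, Equiv.swap_apply_def]
          have v1 : (i.castSucc : ℕ) = i := Fin.val_castSucc i
          have v2 : (i.succ : ℕ) = i + 1 := Fin.val_succ i
          rw [Fin.lt_def] at hxy
          rw [Fin.ext_iff, Fin.ext_iff, v1, v2] at hc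
          rw [Fin.lt_def]
          split_ifs with a1 a2 a3 a4 a5 a6 a7 a8 <;>
            simp only [Fin.ext_iff, v1, v2] at * <;> omega
      rw [h3, zero_mul] at h2
      exact (mul_eq_zero.1 h2).resolve_left (Units.ne_zero _)
    · have h2 := conj_apply' _ _ _ _ h1 x x
      have h3 : u' (adj n i x) (adj n i x) = 1 := hmem.2 _
      rw [h3, one_mul] at h2
      exact mul_left_cancel₀ (Units.ne_zero _) (h2.trans (mul_one _).symm)

end Pool.Agent.Helper89.SX.GLn
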