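import Mathlib
import Pool.Agent.Helper89.SX.GL.St.GE

/-!
# SX-GG: generation of `GL_{n+1}(F)`

Hints.  Let `H` be the subgroup on the left.  (1) `pm (adj n i) ∈ H` by `phi_wt`; all `pm σ ∈ H` by
`Equiv.Perm.mclosure_swap_castSucc_succ` (or `closure` version).  (2) The transvections
`1 + a E_{ij}`, `i ≠ j`: if `i < j` it is in `U`; if `j < i` it is the conjugate of `1 + a E_{ji}` by
`pm (swap i j)`.  (3) A diagonal invertible matrix is in `T`.  (4) Every matrix is
`(∏ transvections) * diagonal * (∏ transvections)`: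
`Matrix.Pivot.exists_list_transvec_mul_diagonal_mul_list_transvec` (`TransvectionStruct.toMatrix`),
or the induction principle `Matrix.diagonal_transvection_induction_of_det_ne_zero`.
-/

set_option autoImplicit false

namespace Pool.Agent.Helper89.SX.GLn

open Matrix Equiv

variable {n : ℕ} {F : Type*} [Field F]

private theorem swap_swap_apply_aux (i j k : Fin (n + 1)) : swap i j (swap i j k) = k := by
  rw [← Equiv.Perm.mul_apply, Equiv.swap_mul_self, Equiv.Perm.one_apply]

private theorem swap_swap_apply' (i j k : Fin (n + 1)) : k = swap i j (swap i j k) :=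
  (swap_swap_apply_aux i j k).symm

private def ggTv (i j : Fin (n + 1)) (h : i ≠ j) (a : F) : GL (Fin (n + 1)) F :=
  ⟨transvection i j a, transvection i j (-a),
    by rw [transvection_mul_transvection_same i j h, add_neg_cancel, transvection_zero],
    by rw [transvection_mul_transvection_same i j h, neg_add_cancel, transvection_zero]⟩

private theorem ggTv_apply (i j : Fin (n + 1)) (h : i ≠ j) (a : F) (k l : Fin (n + 1)) :
    (ggTv i j h a : GL (Fin (n + 1)) F) k l =
      (if k = l then 1 else 0) + (if i = k ∧ j = l then a else 0) := by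
  change (1 + Matrix.single i j a : Matrix (Fin (n + 1)) (Fin (n + 1)) F) k l = _
  rw [Matrix.add_apply, Matrix.one_apply, Matrix.single_apply]

private theorem ggTv_mem_U {i j : Fin (n + 1)} (h : i < j) (a : F) : ggTv i j h.ne a ∈ U n F := by
  rw [mem_U]
  refine ⟨fun k l hkl => ?_, fun k => ?_⟩
  · rw [ggTv_apply, if_neg hkl.ne', if_neg, add_zero]
    rintro ⟨rfl, rfl⟩
    exact absurd h (not_lt.2 hkl.le)
  · rw [ggTv_apply, if_pos rfl, if_neg, add_zero]
    rintro ⟨rfl, h2⟩
    exact h.ne h2.symm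

private theorem ggTv_conj {i j : Fin (n + 1)} (h : i ≠ j) (a : F) :
    (pm (swap i j) : GL (Fin (n + 1)) F) * ggTv i j h a * (pm (swap i j))⁻¹ = ggTv j i h.symm a := by
  rw [mul_inv_eq_iff_eq_mul]
  apply Units.ext
  ext k l
  rw [Units.val_mul, Units.val_mul, Matrix.mul_apply, Matrix.mul_apply,
    Finset.sum_eq_single (swap i j k), Finset.sum_eq_single (swap i j l)]
  · change (pm (swap i j) : GL (Fin (n + 1)) F) k (swap i j k) * ggTv i j h a (swap i j k) l =
      ggTv j i h.symm a k (swap i j l) * (pm (swap i j) : GL (Fin (n + 1)) F) (swap i j l) l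
    rw [pm_apply, pm_apply, if_pos rfl, if_pos (swap_swap_apply' i j k), ggTv_apply, ggTv_apply,
      one_mul, mul_one]
    have e1 : (swap i j k = l) ↔ (k = swap i j l) := by
      constructor
      · rintro rfl; exact (swap_swap_apply' i j k)
      · rintro rfl; exact (swap_swap_apply' i j l).symm
    have e2 : (i = swap i j k ∧ j = l) ↔ (j = k ∧ i = swap i j l) := by
      constructor
      · rintro ⟨h1, rfl⟩
        refine ⟨?_, (swap_apply_right i j).symm⟩
        rw [swap_swap_apply' i j k, ← h1, swap_apply_left]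
      · rintro ⟨rfl, h1⟩
        refine ⟨(swap_apply_right i j).symm, ?_⟩
        rw [swap_swap_apply' i j l, ← h1, swap_apply_left]
    simp only [e1, e2]
  · intro m _ hm
    change ggTv j i h.symm a k m * (pm (swap i j) : GL (Fin (n + 1)) F) m l = 0
    rw [pm_apply, if_neg hm, mul_zero]
  · intro hm; exact absurd (Finset.mem_univ _) hm
  · intro m _ hm
    change (pm (swap i j) : GL (Fin (n + 1)) F) k m * ggTv i j h a m l = 0
    rw [pm_apply, if_neg, zero_mul]
    intro hk
    apply hm
    rw [hk]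
    exact swap_swap_apply' i j m
  · intro hm; exact absurd (Finset.mem_univ _) hm

theorem generated : Subgroup.closure ((T n F : Set (GL (Fin (n + 1)) F)) ∪ U n F ∪
    Set.range fun i : Fin n => phi i wt) = ⊤ := by
  set H := Subgroup.closure ((T n F : Set (GL (Fin (n + 1)) F)) ∪ U n F ∪
    Set.range fun i : Fin n => phi i wt) with hH
  have hT : ∀ g ∈ T n F, g ∈ H := fun g hg => Subgroup.subset_closure (Or.inl (Or.inl hg))
  have hU : ∀ g ∈ U n F, g ∈ H := fun g hg => Subgroup.subset_closure (Or.inl (Or.inr hg))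
  have hD : ∀ c, (dgl c : GL (Fin (n + 1)) F) ∈ H := fun c => hT _ ⟨c, rfl⟩
  have hA : ∀ i : Fin n, (pm (swap i.castSucc i.succ) : GL (Fin (n + 1)) F) ∈ H := fun i => by
    have h1 : (phi i wt : GL (Fin (n + 1)) F) ∈ H := Subgroup.subset_closure (Or.inr ⟨i, rfl⟩)
    rw [phi_wt] at h1
    exact (Subgroup.mul_mem_cancel_right H (hD _)).1 h1
  have hP : ∀ σ : Perm (Fin (n + 1)), (pm σ : GL (Fin (n + 1)) F) ∈ H := fun σ => by
    have h1 : Submonoid.closure (Set.range fun i : Fin n => swap i.castSucc i.succ) ≤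
        (H.comap (pm : Perm (Fin (n + 1)) →* GL (Fin (n + 1)) F)).toSubmonoid := by
      rw [Submonoid.closure_le]
      rintro _ ⟨i, rfl⟩
      exact hA i
    rw [Equiv.Perm.mclosure_swap_castSucc_succ] at h1
    exact h1 (Submonoid.mem_top σ)
  have hTv : ∀ (i j : Fin (n + 1)) (h : i ≠ j) (a : F), ggTv i j h a ∈ H := fun i j h a => by
    rcases lt_or_gt_of_ne h with h1 | h1
    · exact hU _ (ggTv_mem_U h1 a)
    · have h2 := ggTv_conj h.symm a
      rw [← h2]
      exact H.mul_mem (H.mul_mem (hP _) (hU _ (ggTv_mem_U h1 a))) (H.inv_mem (hP _))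
  rw [eq_top_iff]
  intro g _
  have key : ∃ h ∈ H, (h : Matrix (Fin (n + 1)) (Fin (n + 1)) F) = g := by
    refine Matrix.diagonal_transvection_induction_of_det_ne_zero
      (fun M => ∃ h ∈ H, (h : Matrix (Fin (n + 1)) (Fin (n + 1)) F) = M) _ ?_ ?_ ?_ ?_
    · exact ((Matrix.isUnit_iff_isUnit_det _).1 g.isUnit).ne_zero
    · intro D hD0
      rw [det_diagonal, Finset.prod_ne_zero_iff] at hD0
      refine ⟨dgl fun i => Units.mk0 (D i) (hD0 i (Finset.mem_univ i)), hD _, rfl⟩
    · rintro ⟨i, j, hij, c⟩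
      exact ⟨ggTv i j hij c, hTv i j hij c, rfl⟩
    · rintro A B _ _ ⟨h1, h1H, rfl⟩ ⟨h2, h2H, rfl⟩
      exact ⟨h1 * h2, H.mul_mem h1H h2H, rfl⟩
  obtain ⟨h, hh, he⟩ := key
  rwa [← Units.ext he]

end Pool.Agent.Helper89.SX.GLn
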