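import Mathlib
import Pool.Agent.Helper89.SX.GL.St.GE

/-!
# SX-GH: the torus of the subgroup `G_J`

Proof.  For `m : Fin n` let `P` be the diagonal matrix with `1` at the `a ≤ m.castSucc` and `0`
elsewhere, and `Q = 1 - P`.  `K m` is the subgroup of the `g` with `P * g = g * P` and
`det (P * g + Q) = 1`: if `g`, `h` commute with `P` then
`(P g + Q) (P h + Q) = P (g h) + Q`; for the inverse, `P g⁻¹ = g⁻¹ P` and
`(P g + Q) (P g⁻¹ + Q) = 1`.

`φ_i(x) ∈ K m` if `i ≠ m`: `φ_i(x) = 1 + inc * (x - 1) * incᵀ`, and `P * inc = inc`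
if `i < m`, `P * inc = 0` if `m < i`; so `P φ_i(x) + Q` is `φ_i(x)` resp. `1`;
`det (1 + inc * ((x - 1) * incᵀ)) = det (1 + (x - 1) * incᵀ * inc) = det x = 1`
(`Matrix.det_one_add_mul_comm`, `inc_transpose_mul`).

So for `m ∉ J` every `g ∈ G_J` is in `K m`, and it has determinant `1`.  If `g = dgl t` this
says `∏_{a ≤ m} t a = 1` for `m ∉ J` and `∏ a, t a = 1`.  Put `c i = ∏_{a ≤ i.castSucc} t a`
for `i : Fin n`.  Then `dgl t = ∏ i, φ_i(dg (c i))` (product over `i : Fin n` in any order,
e.g. `Finset.noncommProd`, `List.ofFn`/`List.prod`, or `dgl` of a product in the commutative group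
`Fin (n + 1) → Fˣ`, `phi_dg`), as the entry of the product at `j` is `c j * (c (j - 1))⁻¹ = t j`
(with `c (-1) = 1`, `c n = 1`), and the factors with `i ∉ J` are `1`, the other ones are in
`T ⊓ (φ_i).range`.
-/

set_option autoImplicit false

namespace Pool.Agent.Helper89.SX.GLn

open Matrix Equiv

variable {n : ℕ} {F : Type*} [Field F]

/-- the projection on the coordinates `≤ m` -/
private def PP (F : Type*) [Field F] (m : Fin n) : Matrix (Fin (n + 1)) (Fin (n + 1)) F :=
  diagonal fun a => if a ≤ m.castSucc then 1 else 0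

private theorem PP_sq (m : Fin n) : PP F m * PP F m = PP F m := by
  unfold PP
  rw [diagonal_mul_diagonal]
  congr 1
  funext a
  split_ifs <;> simp

private theorem PP_mul_inc_of_lt {m i : Fin n} (h : i < m) : PP F m * inc F i = inc F i := by
  ext a b
  rw [PP, diagonal_mul]
  unfold inc
  simp only [of_apply]
  split_ifs with h1 h2 h2
  · simp
  · simp
  · exfalso
    apply h1
    rw [h2]
    have h3 : (i : ℕ) < m := h
    fin_cases b
    · show i.castSucc ≤ m.castSucc
      exact Fin.castSucc_le_castSucc_iff.2 h.le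
    · show i.succ ≤ m.castSucc
      rw [Fin.le_def]
      simp only [Fin.val_succ, Fin.val_castSucc]
      omega
  · simp

private theorem PP_mul_inc_of_gt {m i : Fin n} (h : m < i) : PP F m * inc F i = 0 := by
  ext a b
  rw [PP, diagonal_mul]
  unfold inc
  simp only [of_apply, Matrix.zero_apply]
  split_ifs with h1 h2
  · exfalso
    rw [h2] at h1
    have h3 : (m : ℕ) < i := h
    fin_cases b
    · have h4 : i.castSucc ≤ m.castSucc := h1
      rw [Fin.le_def] at h4
      simp only [Fin.val_castSucc] at h4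
      omega
    · have h4 : i.succ ≤ m.castSucc := h1
      rw [Fin.le_def] at h4
      simp only [Fin.val_succ, Fin.val_castSucc] at h4
      omega
  · simp
  · simp
  · simp

private theorem PP_transpose (m : Fin n) : (PP F m)ᵀ = PP F m := by
  unfold PP
  rw [diagonal_transpose]

private theorem incT_mul_PP {m i : Fin n} : (inc F i)ᵀ * PP F m = (PP F m * inc F i)ᵀ := by
  rw [transpose_mul, PP_transpose]

private theorem det_embM (i : Fin n) (x : Matrix (Fin 2) (Fin 2) F) :
    (embM i x).det = x.det := by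
  unfold embM
  rw [Matrix.mul_assoc, Matrix.det_one_add_mul_comm, Matrix.mul_assoc, inc_transpose_mul,
    Matrix.mul_one, add_sub_cancel]

/-- the subgroup of the block matrices with leading block of determinant one -/
private def KK (F : Type*) [Field F] (m : Fin n) : Subgroup (GL (Fin (n + 1)) F) where
  carrier := {g | PP F m * (g : Matrix (Fin (n + 1)) (Fin (n + 1)) F) =
      (g : Matrix (Fin (n + 1)) (Fin (n + 1)) F) * PP F m ∧
    (PP F m * (g : Matrix (Fin (n + 1)) (Fin (n + 1)) F) + (1 - PP F m)).det = 1}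
  mul_mem' := by
    rintro g h ⟨hg, hg'⟩ ⟨hh, hh'⟩
    refine ⟨?_, ?_⟩
    · rw [Units.val_mul, ← Matrix.mul_assoc, hg, Matrix.mul_assoc, hh, Matrix.mul_assoc]
    · have h1 : PP F m * ((g * h : GL (Fin (n + 1)) F) : Matrix (Fin (n + 1)) (Fin (n + 1)) F) +
          (1 - PP F m) =
          (PP F m * (g : Matrix (Fin (n + 1)) (Fin (n + 1)) F) + (1 - PP F m)) *
          (PP F m * (h : Matrix (Fin (n + 1)) (Fin (n + 1)) F) + (1 - PP F m)) := by
        have h2 := PP_sq (F := F) m
        have e1 : (PP F m * (g : Matrix (Fin (n + 1)) (Fin (n + 1)) F)) *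
            (PP F m * (h : Matrix (Fin (n + 1)) (Fin (n + 1)) F)) =
            PP F m * ((g * h : GL (Fin (n + 1)) F) : Matrix (Fin (n + 1)) (Fin (n + 1)) F) := by
          rw [Units.val_mul, hg, Matrix.mul_assoc, ← Matrix.mul_assoc (PP F m) (PP F m), h2,
            ← Matrix.mul_assoc, ← hg, Matrix.mul_assoc]
        have e2 : (PP F m * (g : Matrix (Fin (n + 1)) (Fin (n + 1)) F)) * (1 - PP F m) = 0 := by
          rw [hg, Matrix.mul_assoc, Matrix.mul_sub, Matrix.mul_one, h2, sub_self, Matrix.mul_zero]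
        have e3 : (1 - PP F m) * (PP F m * (h : Matrix (Fin (n + 1)) (Fin (n + 1)) F)) = 0 := by
          rw [← Matrix.mul_assoc, Matrix.sub_mul, Matrix.one_mul, h2, sub_self, Matrix.zero_mul]
        have e4 : (1 - PP F m) * (1 - PP F m) = 1 - PP F m := by
          rw [Matrix.sub_mul, Matrix.one_mul, Matrix.mul_sub, Matrix.mul_one, h2, sub_self,
            sub_zero]
        rw [Matrix.mul_add, Matrix.add_mul, Matrix.add_mul, e1, e2, e3, e4, add_zero, zero_add]
      rw [h1, det_mul, hg', hh', one_mul]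
  one_mem' := by
    refine ⟨?_, ?_⟩
    · rw [Units.val_one, Matrix.mul_one, Matrix.one_mul]
    · rw [Units.val_one, Matrix.mul_one, add_sub_cancel, det_one]
  inv_mem' := by
    rintro g ⟨hg, hg'⟩
    have hgi : (g : Matrix (Fin (n + 1)) (Fin (n + 1)) F) *
        ((g⁻¹ : GL (Fin (n + 1)) F) : Matrix (Fin (n + 1)) (Fin (n + 1)) F) = 1 := by
      rw [← Units.val_mul, mul_inv_cancel, Units.val_one]
    have hig : ((g⁻¹ : GL (Fin (n + 1)) F) : Matrix (Fin (n + 1)) (Fin (n + 1)) F) *
        (g : Matrix (Fin (n + 1)) (Fin (n + 1)) F) = 1 := by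
      rw [← Units.val_mul, inv_mul_cancel, Units.val_one]
    have h3 : PP F m * ((g⁻¹ : GL (Fin (n + 1)) F) : Matrix (Fin (n + 1)) (Fin (n + 1)) F) =
        ((g⁻¹ : GL (Fin (n + 1)) F) : Matrix (Fin (n + 1)) (Fin (n + 1)) F) * PP F m := by
      calc PP F m * ((g⁻¹ : GL (Fin (n + 1)) F) : Matrix (Fin (n + 1)) (Fin (n + 1)) F)
          = ((g⁻¹ : GL (Fin (n + 1)) F) : Matrix (Fin (n + 1)) (Fin (n + 1)) F) *
            ((g : Matrix (Fin (n + 1)) (Fin (n + 1)) F) * PP F m) *
            ((g⁻¹ : GL (Fin (n + 1)) F) : Matrix (Fin (n + 1)) (Fin (n + 1)) F) := by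
            rw [← Matrix.mul_assoc, hig, Matrix.one_mul]
        _ = _ := by
            rw [← hg, Matrix.mul_assoc, Matrix.mul_assoc, hgi, Matrix.mul_one]
    refine ⟨h3, ?_⟩
    have h2 := PP_sq (F := F) m
    have h1 : (PP F m * (g : Matrix (Fin (n + 1)) (Fin (n + 1)) F) + (1 - PP F m)) *
          (PP F m * ((g⁻¹ : GL (Fin (n + 1)) F) : Matrix (Fin (n + 1)) (Fin (n + 1)) F) +
          (1 - PP F m)) = 1 := by
      have e1 : (PP F m * (g : Matrix (Fin (n + 1)) (Fin (n + 1)) F)) *
          (PP F m * ((g⁻¹ : GL (Fin (n + 1)) F) : Matrix (Fin (n + 1)) (Fin (n + 1)) F)) =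
          PP F m := by
        rw [hg, Matrix.mul_assoc, ← Matrix.mul_assoc (PP F m) (PP F m), h2,
          ← Matrix.mul_assoc, ← hg, Matrix.mul_assoc, hgi, Matrix.mul_one]
      have e2 : (PP F m * (g : Matrix (Fin (n + 1)) (Fin (n + 1)) F)) * (1 - PP F m) = 0 := by
        rw [hg, Matrix.mul_assoc, Matrix.mul_sub, Matrix.mul_one, h2, sub_self, Matrix.mul_zero]
      have e3 : (1 - PP F m) * (PP F m * ((g⁻¹ : GL (Fin (n + 1)) F) :
          Matrix (Fin (n + 1)) (Fin (n + 1)) F)) = 0 := by
        rw [← Matrix.mul_assoc, Matrix.sub_mul, Matrix.one_mul, h2, sub_self, Matrix.zero_mul]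
      have e4 : (1 - PP F m) * (1 - PP F m) = 1 - PP F m := by
        rw [Matrix.sub_mul, Matrix.one_mul, Matrix.mul_sub, Matrix.mul_one, h2, sub_self,
          sub_zero]
      rw [Matrix.mul_add, Matrix.add_mul, Matrix.add_mul, e1, e2, e3, e4, add_zero, zero_add,
        add_sub_cancel]
    have h4 := congrArg Matrix.det h1
    rw [det_mul, hg', one_mul, det_one] at h4
    exact h4

private theorem phi_mem_KK {m i : Fin n} (h : i ≠ m) (x : SpecialLinearGroup (Fin 2) F) :
    phi i x ∈ KK F m := by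
  show PP F m * embM i x.1 = embM i x.1 * PP F m ∧
    (PP F m * embM i x.1 + (1 - PP F m)).det = 1
  rcases lt_or_gt_of_ne h with h | h
  · have h1 : PP F m * embM i x.1 = PP F m + inc F i * (x.1 - 1) * (inc F i)ᵀ := by
      unfold embM
      rw [Matrix.mul_add, Matrix.mul_one, Matrix.mul_assoc, ← Matrix.mul_assoc (PP F m),
        PP_mul_inc_of_lt h]
    have h2 : embM i x.1 * PP F m = PP F m + inc F i * (x.1 - 1) * (inc F i)ᵀ := by
      unfold embM
      rw [Matrix.add_mul, Matrix.one_mul, Matrix.mul_assoc _ (inc F i)ᵀ, incT_mul_PP,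
        PP_mul_inc_of_lt h]
    refine ⟨h1.trans h2.symm, ?_⟩
    have h3 : PP F m * embM i x.1 + (1 - PP F m) = embM i x.1 := by
      rw [h1, embM]
      abel
    rw [h3, det_embM]
    exact x.2
  · have h1 : PP F m * embM i x.1 = PP F m := by
      unfold embM
      rw [Matrix.mul_add, Matrix.mul_one, Matrix.mul_assoc, ← Matrix.mul_assoc (PP F m),
        PP_mul_inc_of_gt h, Matrix.zero_mul, add_zero]
    have h2 : embM i x.1 * PP F m = PP F m := by
      unfold embM
      rw [Matrix.add_mul, Matrix.one_mul, Matrix.mul_assoc _ (inc F i)ᵀ, incT_mul_PP,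
        PP_mul_inc_of_gt h, transpose_zero, Matrix.mul_zero, add_zero]
    refine ⟨h1.trans h2.symm, ?_⟩
    rw [h1, add_sub_cancel, det_one]

private theorem prod_eq (t : Fin (n + 1) → Fˣ) (hlast : ∏ a, t a = 1) :
    t = ∏ i : Fin n, Function.update (Function.update (1 : Fin (n + 1) → Fˣ) i.castSucc
      (∏ a ∈ Finset.Iic i.castSucc, t a)) i.succ (∏ a ∈ Finset.Iic i.castSucc, t a)⁻¹ := by
  funext j
  rw [Finset.prod_apply]
  have h1 : ∀ i : Fin n, Function.update (Function.update (1 : Fin (n + 1) → Fˣ) i.castSucc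
      (∏ a ∈ Finset.Iic i.castSucc, t a)) i.succ (∏ a ∈ Finset.Iic i.castSucc, t a)⁻¹ j =
      (if j = i.succ then (∏ a ∈ Finset.Iic i.castSucc, t a)⁻¹ else 1) *
        (if j = i.castSucc then (∏ a ∈ Finset.Iic i.castSucc, t a) else 1) := by
    intro i
    have hne : i.castSucc ≠ i.succ := (Fin.castSucc_lt_succ).ne
    rw [Function.update_apply, Function.update_apply, Pi.one_apply]
    by_cases ha : j = i.succ
    · rw [if_pos ha, if_pos ha, if_neg (by rw [ha]; exact hne.symm), mul_one]
    · rw [if_neg ha, if_neg ha, one_mul]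
  rw [Finset.prod_congr rfl fun i _ => h1 i, Finset.prod_mul_distrib]
  have h2 : ∏ i : Fin n, (if j = i.castSucc then (∏ a ∈ Finset.Iic i.castSucc, t a) else 1) =
      ∏ a ∈ Finset.Iic j, t a := by
    refine Fin.lastCases ?_ (fun k => ?_) j
    · rw [Finset.prod_eq_one]
      · have : (Finset.Iic (Fin.last n)) = Finset.univ := by
          ext a; simp [Fin.le_last]
        rw [this, hlast]
      · intro i _
        rw [if_neg (Fin.castSucc_lt_last i).ne']
    · rw [Finset.prod_eq_single k]
      · rw [if_pos rfl]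
      · intro i _ hi
        rw [if_neg fun h => hi (Fin.castSucc_injective n h).symm]
      · intro h
        exact absurd (Finset.mem_univ k) h
  rw [h2]
  refine Fin.cases ?_ (fun k => ?_) j
  · rw [Finset.prod_eq_one, one_mul]
    · have : Finset.Iic (0 : Fin (n + 1)) = {0} := by
        ext a; simp
      rw [this, Finset.prod_singleton]
    · intro i _
      rw [if_neg (Fin.succ_ne_zero i).symm]
  · rw [Finset.prod_eq_single k]
    · rw [if_pos rfl]
      have : Finset.Iic k.succ = insert k.succ (Finset.Iic k.castSucc) := by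
        ext a
        simp only [Finset.mem_Iic, Finset.mem_insert]
        constructor
        · intro h
          rcases h.lt_or_eq with h | h
          · exact Or.inr (Fin.le_castSucc_iff.2 h)
          · exact Or.inl h
        · rintro (h | h)
          · exact h.le
          · exact h.trans (Fin.castSucc_lt_succ).le
      rw [this, Finset.prod_insert]
      · rw [mul_comm (t k.succ), inv_mul_cancel_left]
      · rw [Finset.mem_Iic]
        exact not_le.2 (Fin.castSucc_lt_succ)
    · intro i _ hi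
      rw [if_neg fun h => hi (Fin.succ_injective n h).symm]
    · intro h
      exact absurd (Finset.mem_univ k) h

theorem T_inf_GJ (J : Set (Fin n)) :
    T n F ⊓ (⨆ i ∈ J, (phi i : SpecialLinearGroup (Fin 2) F →* GL (Fin (n + 1)) F).range) ≤
      ⨆ i ∈ J, (T n F ⊓ (phi i : SpecialLinearGroup (Fin 2) F →* GL (Fin (n + 1)) F).range) := by
  rintro g ⟨⟨t, rfl⟩, hg⟩
  have hdet : (dgl t : GL (Fin (n + 1)) F) ∈
      (Matrix.GeneralLinearGroup.det : GL (Fin (n + 1)) F →* Fˣ).ker := by
    refine (iSup₂_le ?_ : (⨆ i ∈ J, (phi i : SpecialLinearGroup (Fin 2) F →*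
      GL (Fin (n + 1)) F).range) ≤ _) hg
    rintro i - _ ⟨x, rfl⟩
    rw [MonoidHom.mem_ker]
    apply Units.ext
    show (embM i x.1).det = 1
    rw [det_embM]
    exact x.2
  have hlast : ∏ a, t a = 1 := by
    have h1 := MonoidHom.mem_ker.1 hdet
    have h2 := congrArg Units.val h1
    have h3 : (diagonal fun i => (t i : F)).det = 1 := h2
    rw [det_diagonal] at h3
    apply Units.ext
    rw [Units.coe_prod, h3, Units.val_one]
  have hm : ∀ m : Fin n, m ∉ J → ∏ a ∈ Finset.Iic m.castSucc, t a = 1 := by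
    intro m hmJ
    have hK : (dgl t : GL (Fin (n + 1)) F) ∈ KK F m := by
      refine (iSup₂_le ?_ : (⨆ i ∈ J, (phi i : SpecialLinearGroup (Fin 2) F →*
        GL (Fin (n + 1)) F).range) ≤ _) hg
      rintro i hi _ ⟨x, rfl⟩
      exact phi_mem_KK (fun h => hmJ (by rw [← h]; exact hi)) x
    have h1 : (PP F m * (diagonal fun i => (t i : F)) + (1 - PP F m)).det = 1 := hK.2
    have h2 : PP F m * (diagonal fun i => (t i : F)) + (1 - PP F m) =
        diagonal fun a => if a ≤ m.castSucc then (t a : F) else 1 := by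
      unfold PP
      rw [diagonal_mul_diagonal, ← diagonal_one, diagonal_sub, diagonal_add]
      congr 1
      funext a
      split_ifs <;> simp
    rw [h2, det_diagonal] at h1
    apply Units.ext
    rw [Units.coe_prod, Units.val_one, ← h1, ← Finset.prod_filter]
    apply Finset.prod_congr
    · ext a; simp
    · intro a _; rfl
  rw [prod_eq t hlast]
  set S := ⨆ i ∈ J, (T n F ⊓ (phi i : SpecialLinearGroup (Fin 2) F →*
    GL (Fin (n + 1)) F).range) with hS
  have key : (∏ i : Fin n, Function.update (Function.update (1 : Fin (n + 1) → Fˣ) i.castSucc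
      (∏ a ∈ Finset.Iic i.castSucc, t a)) i.succ (∏ a ∈ Finset.Iic i.castSucc, t a)⁻¹) ∈
      S.comap (dgl : (Fin (n + 1) → Fˣ) →* GL (Fin (n + 1)) F) := by
    refine Subgroup.prod_mem _ fun i _ => ?_
    rw [Subgroup.mem_comap]
    by_cases hi : i ∈ J
    · have h1 : T n F ⊓ (phi i : SpecialLinearGroup (Fin 2) F →* GL (Fin (n + 1)) F).range ≤ S :=
        le_iSup₂_of_le i hi le_rfl
      apply h1
      rw [← phi_dg]
      exact ⟨phi_dg_mem i _, ⟨_, rfl⟩⟩
    · rw [hm i hi, inv_one]
      have h2 : Function.update (Function.update (1 : Fin (n + 1) → Fˣ) i.castSucc 1) i.succ 1 =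
          1 := by
        funext j
        rw [Function.update_apply, Function.update_apply, Pi.one_apply]
        split_ifs <;> rfl
      rw [h2, map_one]
      exact one_mem _
  exact key

end Pool.Agent.Helper89.SX.GLn
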