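import Mathlib
import Pool.Agent.Helper89.SX.GL.Defs

/-!
# SX-GI: the Frobenius endomorphism

Hints: the entry of `Fr p n F g` at `(i, j)` is `(g i j) ^ p` (`Matrix.GeneralLinearGroup.map`,
`frobenius_def`), the entry of `(Fr p n F)^[m] g` is `(g i j) ^ p ^ m` (`iterate_frobenius`).
`Fr_phi`: the ring homomorphism `frobenius F p` maps `embM i x` to `embM i (x.map _)`
(`RingHom.mapMatrix` commutes with the matrix operations, `inc` has entries `0`, `1`).
`Fr_fixed`: each entry `x` has an `m > 0` with `x ^ p ^ m = x` (hypothesis `hF`); take the product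
of the `m` over the finitely many entries (if `x ^ p ^ m = x` then `x ^ p ^ (m * k) = x`).
`Fr_finite`: the entries of a fixed `g` are roots of `X ^ p ^ m - X`, a nonzero polynomial; finitely
many matrices have entries in a finite set (`Set.Finite.pi` or `Set.Finite.of_injOn`/`Finite`),
and `Units.val` is injective.
-/

set_option autoImplicit false

namespace Pool.Agent.Helper89.SX.GLn

open Matrix Equiv

variable {n : ℕ} {F : Type*} [Field F]

private theorem GI_apply (p : ℕ) [Fact p.Prime] [CharP F p] (g : GL (Fin (n + 1)) F)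
    (i j : Fin (n + 1)) : (Fr p n F g) i j = (g i j) ^ p := by
  unfold Fr
  rw [Matrix.GeneralLinearGroup.map_apply, frobenius_def]

private theorem GI_iter (p : ℕ) [Fact p.Prime] [CharP F p] (m : ℕ) (g : GL (Fin (n + 1)) F)
    (i j : Fin (n + 1)) : ((Fr p n F)^[m] g) i j = (g i j) ^ p ^ m := by
  induction m with
  | zero => simp
  | succ m ih =>
    rw [Function.iterate_succ_apply', GI_apply, ih, ← pow_mul, pow_succ]

private theorem GI_pow_mul (p : ℕ) (x : F) (m k : ℕ) (h : x ^ p ^ m = x) :
    x ^ p ^ (m * k) = x := by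
  induction k with
  | zero => simp
  | succ k ih =>
    rw [Nat.mul_succ, pow_add, pow_mul, ih, h]

theorem Fr_phi (p : ℕ) [Fact p.Prime] [CharP F p] (i : Fin n)
    (x : SpecialLinearGroup (Fin 2) F) :
    Fr p n F (phi i x) = phi i (SpecialLinearGroup.map (iterateFrobenius F p 1) x) := by
  have h1 : iterateFrobenius F p 1 = frobenius F p := iterateFrobenius_one F p
  rw [h1]
  apply Units.ext
  change (frobenius F p).mapMatrix (embM i x.1) =
    embM i ((frobenius F p).mapMatrix x.1)
  have hinc : ((inc F i).map (frobenius F p)) = inc F i := by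
    ext a b
    simp only [inc, Matrix.map_apply, Matrix.of_apply]
    split_ifs
    · exact map_one _
    · exact map_zero _
  unfold embM
  rw [map_add, map_one]
  congr 1
  rw [RingHom.mapMatrix_apply, Matrix.map_mul, Matrix.map_mul, Matrix.transpose_map, hinc]
  congr 2
  rw [← RingHom.mapMatrix_apply, map_sub, map_one]

theorem Fr_torus (p : ℕ) [Fact p.Prime] [CharP F p] (c : Fin (n + 1) → Fˣ) :
    Fr p n F (tor n F c) = tor n F (fun j => c j ^ p ^ 1) := by
  rw [coe_tor, coe_tor]
  ext i j
  rw [GI_apply, dgl_apply, dgl_apply, pow_one]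
  split_ifs
  · simp
  · exact zero_pow (Fact.out : p.Prime).ne_zero

theorem Fr_U (p : ℕ) [Fact p.Prime] [CharP F p] : ∀ u ∈ U n F, Fr p n F u ∈ U n F := by
  rintro u ⟨h1, h2⟩
  refine mem_U.2 ⟨fun i j hij => ?_, fun i => ?_⟩
  · rw [GI_apply, h1 i j hij, zero_pow (Fact.out : p.Prime).ne_zero]
  · rw [GI_apply, h2 i, one_pow]

theorem Fr_fixed (p : ℕ) [Fact p.Prime] [CharP F p]
    (hF : ∀ x : F, ∃ m : ℕ, 0 < m ∧ x ^ p ^ m = x) (g : GL (Fin (n + 1)) F) :
    ∃ m : ℕ, 0 < m ∧ (Fr p n F)^[m] g = g := by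
  choose f hf0 hf using hF
  refine ⟨∏ q : Fin (n + 1) × Fin (n + 1), f (g q.1 q.2),
    Finset.prod_pos fun q _ => hf0 _, ?_⟩
  ext i j
  rw [GI_iter]
  obtain ⟨k, hk⟩ := Finset.dvd_prod_of_mem (fun q : Fin (n + 1) × Fin (n + 1) => f (g q.1 q.2))
    (Finset.mem_univ (i, j))
  rw [hk]
  exact GI_pow_mul p _ _ _ (hf _)

theorem Fr_finite (p : ℕ) [Fact p.Prime] [CharP F p] (m : ℕ) (hm : 0 < m) :
    {g : GL (Fin (n + 1)) F | (Fr p n F)^[m] g = g}.Finite := by
  have hS : {x : F | x ^ p ^ m = x}.Finite := by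
    classical
    have hq : 1 < p ^ m := Nat.one_lt_pow hm.ne' (Fact.out : p.Prime).one_lt
    have hne : (Polynomial.X ^ p ^ m - Polynomial.X : Polynomial F) ≠ 0 :=
      FiniteField.X_pow_card_sub_X_ne_zero F hq
    refine ((Polynomial.X ^ p ^ m - Polynomial.X : Polynomial F).roots.toFinset.finite_toSet).subset
      fun x hx => ?_
    have hx' : x ^ p ^ m = x := hx
    simp [hne, hx']
  have hM : {M : Fin (n + 1) → Fin (n + 1) → F | ∀ i j, M i j ∈ {x : F | x ^ p ^ m = x}}.Finite := by
    have h1 : (Set.univ.pi fun _ : Fin (n + 1) => Set.univ.pi fun _ : Fin (n + 1) =>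
        {x : F | x ^ p ^ m = x}).Finite :=
      Set.Finite.pi fun _ => Set.Finite.pi fun _ => hS
    refine h1.subset fun M hM => ?_
    intro i _ j _
    exact hM i j
  refine Set.Finite.of_finite_image (f := fun g : GL (Fin (n + 1)) F =>
    ((g : Matrix (Fin (n + 1)) (Fin (n + 1)) F) : Fin (n + 1) → Fin (n + 1) → F)) ?_ ?_
  · refine hM.subset ?_
    rintro _ ⟨g, hg, rfl⟩ i j
    have h2 := GI_iter p m g i j
    rw [hg] at h2
    exact h2.symm
  · intro g _ h _ hgh
    exact Units.ext hgh

/-- Every element of an algebraic extension of the prime field is in a finite field. -/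
theorem pow_fixed (p : ℕ) [Fact p.Prime] [CharP F p] [Algebra (ZMod p) F]
    [Algebra.IsAlgebraic (ZMod p) F] (x : F) : ∃ m : ℕ, 0 < m ∧ x ^ p ^ m = x := by
  have hx : IsIntegral (ZMod p) x := (Algebra.IsAlgebraic.isAlgebraic x).isIntegral
  let K : IntermediateField (ZMod p) F := IntermediateField.adjoin (ZMod p) {x}
  have : FiniteDimensional (ZMod p) K := IntermediateField.adjoin.finiteDimensional hx
  have : Finite K := Module.finite_of_finite (ZMod p)
  have : Fintype K := Fintype.ofFinite K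
  have : CharP K p := (algebraMap K F).charP (algebraMap K F).injective p
  obtain ⟨m, hp, hm⟩ := FiniteField.card K p
  refine ⟨m, m.pos, ?_⟩
  have h1 : (⟨x, IntermediateField.mem_adjoin_simple_self (ZMod p) x⟩ : K) ^ Fintype.card K = _ :=
    FiniteField.pow_card _
  rw [hm] at h1
  exact congrArg Subtype.val h1

end Pool.Agent.Helper89.SX.GLn
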